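import Pool.Agent.Helper23.FB.L04_a0

/-!
# The relative bicentralizer flow is the relative flow of weights

Proof: textbook type III₁ algebras are type III₁ in the sense of Connes and Størmer
(`Pool.Agent.Helper88.CS.connes_stormer`), the bicentralizer of a type III₁ algebra is trivial
(`Pool.Agent.Helper78.BC.trivialBicentralizer`), and the relative statement for an arbitrary dominant weight
follows from the triviality of the bicentralizer of the smaller algebra
(`Pool.Agent.Helper23.ED.main_every'`).

The modules `Pool.Agent.Helper23.FA.*` are the proof, cut so that it builds fast.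
-/

open scoped InnerProductSpace Topology ENNReal
open Filter
open Pool.Agent.Helper23.RBF

namespace Pool.Agent.Results.MP_357da3_an.FullAnswer

universe u

variable {H : Type u} [NormedAddCommGroup H] [InnerProductSpace ℂ H] [CompleteSpace H]

open Pool.Agent.Helper23 in
lemma toSetting {M N : VonNeumannAlgebra H} {E : (H →L[ℂ] H) → (H →L[ℂ] H)} {ξ : H}
    (hI : Inclusion M N E ξ) : Setting M N E ξ where
  le := hI.sub
  norm_one := hI.norm_one
  cyc := hI.cyclic
  sep := hI.separating
  E_mem := hI.mem
  E_bimod := hI.bimod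
  E_fix := hI.fix
  E_state := hI.state

/-- Let `N ⊆ M` be an inclusion of von Neumann algebras with expectation `E` on a separable
Hilbert space, where `N` is a factor of type III₁ (textbook definition), and let `φ` be a faithful
normal state of `N`. Then the bicentralizer `B(N, φ)` is trivial (Connes' bicentralizer problem),
`N` has dominant weights, and for every dominant weight `ψ` of `N` the relative bicentralizer flow
of `φ` is isomorphic to the relative flow of weights of `ψ`, by an isomorphism with all the
properties asked for in Q1. -/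
theorem result [TopologicalSpace.SeparableSpace H] (M N : VonNeumannAlgebra H)
    (E : (H →L[ℂ] H) → (H →L[ℂ] H)) (ξ : H) (hI : Inclusion M N E ξ)
    (hN : Pool.Agent.Helper88.CS.IsTypeIIIOne N) :
    TrivialBicentralizer N ξ ∧
    ∃ (B : VonNeumannAlgebra H) (β : ℝ → (H →L[ℂ] H) → (H →L[ℂ] H)),
      IsBicentralizer M N ξ B ∧ IsRelativeBicentralizerFlow N ξ B β ∧
      (∃ ψ : (H →L[ℂ] H) → ℝ≥0∞, IsDominant N ψ) ∧
      ∀ ψ : (H →L[ℂ] H) → ℝ≥0∞, IsDominant N ψ →
        ∃ (C : VonNeumannAlgebra H) (π : (H →L[ℂ] H) → (H →L[ℂ] H)),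
          IsRelCommCentralizer M N ψ C ∧ IsStarIso B C π ∧ BoundedStronglyContinuous B π ∧
          IntertwinesFlows N ψ B β π ∧ PreservesState E ξ B π := by
  have S := toSetting hI
  have hsep : ∀ a ∈ N, a ξ = 0 → a = 0 := fun a ha => hI.separating a (hI.sub a ha)
  have hCS : TypeIIIOne N := Pool.Agent.Helper88.CS.connes_stormer N hI.norm_one hsep hN
  have hB : TrivialBicentralizer N ξ :=
    Pool.Agent.Helper78.BC.trivialBicentralizer N ξ hI.norm_one hsep hCS
  obtain ⟨h0, hd, h1⟩ := Pool.Agent.Helper23.ED.main_every' S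
    (show Pool.Agent.Helper23.TypeIIIOne N from hCS) (fun x hx => hB x hx.1 hx.2)
  refine ⟨hB, S.Balg, Pool.Agent.Helper23.btU M N ξ, S.Balg_isBicentralizer, h0, hd,
    fun ψ hψ => ?_⟩
  obtain ⟨π, h2, h3, h4, h5⟩ := h1 ψ hψ
  refine ⟨Pool.Agent.Helper23.Calg M N ψ, π, Pool.Agent.Helper23.mem_Calg, h2, h3, h4,
    fun x hx => ?_⟩
  rw [h5 x hx, S.E_state _ ((S.Balg_isBicentralizer _).1 hx).1]

end Pool.Agent.Results.MP_357da3_an.FullAnswer
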